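import Mathlib
import Pool.Agent.H97.MC.Cube
import Pool.Agent.H97.MC.Inf
import Pool.Agent.H95.MC.SharpInt

/-!
# Translative coverings by boxes with sides at most one, in every dimension

Moser (1966) asked whether every family of axis-parallel rectangles with largest side `1` and total
area `3` covers the unit square by translations. We prove the `d`-dimensional theorem with the optimal
constant, for every dimension `d`:

1. `d ≥ 2`: every family, finite or infinite, of boxes with sides at most `1` and total volume at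
   least `2 ^ d - 1` has a finite subfamily whose translates cover the unit cube (`d = 2`: Moser's
   question, without the condition on the largest side);
2. `d ≥ 1`: every such family of total volume at least `∏ (1 + y k) - 1` covers the box with sides
   `y k > 0` by translations;
3. `d ≥ 2`: these constants are optimal when the `y k` are integers: for every `T` below
   `∏ (1 + n k) - 1` there is a finite family with largest side `1` and total volume exactly `T` which
   does not cover the box with sides `n k`.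
-/

set_option autoImplicit false

namespace Pool.Agent.Results.MP_6800d9_co.BoxesInEveryDimension

/-- Translates of the boxes `[0, a i 1] × ⋯ × [0, a i d]`, `i : ι`, cover the box
`[0, y 1] × ⋯ × [0, y d]`. -/
def Covers {d : ℕ} {ι : Type} (y : Fin d → ℝ) (a : ι → Fin d → ℝ) : Prop :=
  ∃ v : ι → Fin d → ℝ, Set.Icc 0 y ⊆ ⋃ i, Set.Icc (v i) (v i + a i)

/-- The total volume, in `[0, ∞]`, of the boxes with sides `a i k`. -/
noncomputable def totalVolume {d : ℕ} {ι : Type} (a : ι → Fin d → ℝ) : ENNReal :=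
  ∑' i, ENNReal.ofReal (∏ k, a i k)

lemma covers_iff {d : ℕ} {ι : Type} (y : Fin d → ℝ) (a : ι → Fin d → ℝ) :
    Covers y a ↔ ∃ v : ι → Fin d → ℝ, ∀ x : Fin d → ℝ, (∀ k, 0 ≤ x k ∧ x k ≤ y k) →
      ∃ i, ∀ k, v i k ≤ x k ∧ x k ≤ v i k + a i k := by
  unfold Covers
  refine exists_congr fun v => ⟨fun h x hx => ?_, fun h x hx => ?_⟩
  · obtain ⟨i, hi⟩ := Set.mem_iUnion.1 (h (show x ∈ Set.Icc 0 y from ⟨fun k => (hx k).1, fun k => (hx k).2⟩))
    exact ⟨i, fun k => ⟨hi.1 k, hi.2 k⟩⟩
  · obtain ⟨i, hi⟩ := h x (fun k => ⟨hx.1 k, hx.2 k⟩)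
    exact Set.mem_iUnion.2 ⟨i, fun k => (hi k).1, fun k => (hi k).2⟩

theorem result :
    -- every family of total volume at least `2 ^ d - 1`: a finite subfamily covers the unit cube
    (∀ d : ℕ, 2 ≤ d → ∀ (ι : Type) (a : ι → Fin d → ℝ), (∀ i k, 0 ≤ a i k ∧ a i k ≤ 1) →
      ENNReal.ofReal (2 ^ d - 1) ≤ totalVolume a →
      ∃ S : Finset ι, Covers 1 (fun i : S => a i)) ∧
    -- boxes instead of the cube
    (∀ d : ℕ, 1 ≤ d → ∀ y : Fin d → ℝ, (∀ k, 0 < y k) →
      ∀ (ι : Type) (a : ι → Fin d → ℝ), (∀ i k, 0 ≤ a i k ∧ a i k ≤ 1) →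
      ENNReal.ofReal (∏ k, (1 + y k) - 1) ≤ totalVolume a → Covers y a) ∧
    -- the constants are optimal for integers
    (∀ d : ℕ, 2 ≤ d → ∀ n : Fin d → ℕ, (∀ k, 1 ≤ n k) →
      ∀ T : ℝ, 0 < T → T < ∏ k, (1 + (n k : ℝ)) - 1 →
      ∃ (N : ℕ) (a : Fin N → Fin d → ℝ), (∀ i k, 0 < a i k ∧ a i k ≤ 1) ∧ (∃ i k, a i k = 1) ∧
        ∑ i, ∏ k, a i k = T ∧ ¬ Covers (fun k => (n k : ℝ)) a) := by
  refine ⟨fun d hd ι a ha hV => ?_, fun d hd y hy ι a ha hV => ?_, fun d hd n hn T hT0 hT => ?_⟩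
  · obtain ⟨S, v, hv⟩ := Pool.Agent.H97.MC.cube_cover d hd a ha hV
    refine ⟨S, (covers_iff _ _).2 ⟨fun i => v i, fun x hx => ?_⟩⟩
    obtain ⟨i, hi, h⟩ := hv x hx
    exact ⟨⟨i, hi⟩, h⟩
  · exact (covers_iff _ _).2 (Pool.Agent.H97.MC.cover d hd y hy a ha hV)
  · obtain ⟨N, a, h1, h2, h3, h4⟩ := Pool.Agent.H95.MC.sharp_exact_int d hd n hn T hT0 (by
      have : ∏ k, ((n k : ℝ) + 1) = ∏ k, (1 + (n k : ℝ)) := Finset.prod_congr rfl fun k _ => add_comm _ _
      rw [this]
      exact hT)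
    exact ⟨N, a, h1, h2, h3, fun h => h4 ((covers_iff _ _).1 h)⟩

end Pool.Agent.Results.MP_6800d9_co.BoxesInEveryDimension
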